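import Pool.Agent.T6.H56.GL.Planar
import Pool.Agent.R789.C1Curve

/-!
# Differentiability along segments of maps which map `C¹` curves onto `C¹` curves
-/

set_option autoImplicit false

open MeasureTheory Filter Topology Set Metric Complex

namespace Pool.Agent.T6.H56.GL

/-- parametrised closed `C¹` curves of the plane -/
def IsParam (γ : ℝ → ℂ) : Prop :=
  ContDiff ℝ 1 γ ∧ (∀ t, deriv γ t ≠ 0) ∧ (∀ t, γ (t + 1) = γ t) ∧ InjOn γ (Ico 0 1)

/-- a smooth bump function -/
noncomputable def bmp : ContDiffBump (0 : ℝ) := ⟨1 / 2, 3 / 4, by norm_num, by norm_num⟩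

/-- a function which is `√(1 - a²)` for `|a| ≤ 1/2` -/
noncomputable def hh (a : ℝ) : ℝ := bmp a * Real.sqrt (1 - a ^ 2)

lemma contDiff_hh : ContDiff ℝ 1 hh := by
  rw [contDiff_iff_contDiffAt]
  intro a
  by_cases ha : |a| < 1
  · refine ContDiffAt.mul bmp.contDiffAt (ContDiffAt.sqrt (by fun_prop) ?_)
    have h1 := abs_lt.1 ha
    have h2 : 0 < (1 - a) * (1 + a) := mul_pos (by linarith) (by linarith)
    nlinarith
  · have h1 : hh =ᶠ[𝓝 a] fun _ => 0 := by
      have h2 : {b : ℝ | 3 / 4 < |b|} ∈ 𝓝 a := by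
        apply (isOpen_lt continuous_const continuous_abs).mem_nhds
        change 3 / 4 < |a|
        linarith
      filter_upwards [h2] with b hb
      have h3 : bmp b = 0 := by
        apply bmp.zero_of_le_dist
        rw [Real.dist_eq, sub_zero]
        change 3 / 4 ≤ |b|
        exact le_of_lt hb
      rw [hh, h3, zero_mul]
    exact (contDiffAt_const).congr_of_eventuallyEq h1

lemma hh_eq {a : ℝ} (ha : |a| ≤ 1 / 2) : hh a = Real.sqrt (1 - a ^ 2) := by
  have h3 : bmp a = 1 := by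
    apply bmp.one_of_mem_closedBall
    rw [mem_closedBall, Real.dist_eq, sub_zero]
    exact ha
  rw [hh, h3, one_mul]

lemma abs_hh_le (a : ℝ) : |hh a| ≤ 1 := by
  rw [hh, abs_mul]
  have h1 : |bmp a| ≤ 1 := by
    rw [abs_of_nonneg bmp.nonneg]; exact bmp.le_one
  have h2 : |Real.sqrt (1 - a ^ 2)| ≤ 1 := by
    rw [abs_of_nonneg (Real.sqrt_nonneg _), Real.sqrt_le_one]
    nlinarith [sq_nonneg a]
  calc |bmp a| * |Real.sqrt (1 - a ^ 2)| ≤ 1 * 1 := by gcongr
    _ = 1 := one_mul 1

/-- Every short segment is contained in a `C¹` curve near it. -/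
lemma exists_param (z v : ℂ) (hv : v ≠ 0) {ρ : ℝ} (hρ : 0 < ρ) :
    ∃ c : ℝ → ℂ, IsParam c ∧ range c ⊆ closedBall z (3 * ρ * ‖v‖) ∧
      ∀ s : ℝ, |s| ≤ ρ / 2 → z + s * v ∈ range c := by
  set X : ℝ → ℝ := fun t => Real.cos (2 * Real.pi * t) with hX
  set Y : ℝ → ℝ := fun t => Real.sin (2 * Real.pi * t) + hh (X t) with hY
  have hXs : ContDiff ℝ 1 X := by rw [hX]; fun_prop
  have hYs : ContDiff ℝ 1 Y := by
    rw [hY]
    refine ContDiff.add (by fun_prop) (contDiff_hh.comp hXs)
  have hXd : ∀ t, HasDerivAt X (-(2 * Real.pi * Real.sin (2 * Real.pi * t))) t := by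
    intro t
    have h1 : HasDerivAt (fun t : ℝ => 2 * Real.pi * t) (2 * Real.pi) t := by
      simpa using (hasDerivAt_id t).const_mul (2 * Real.pi)
    have := h1.cos
    convert this using 1
    ring
  have hYd : ∀ t, HasDerivAt Y (2 * Real.pi * Real.cos (2 * Real.pi * t) +
      deriv hh (X t) * (-(2 * Real.pi * Real.sin (2 * Real.pi * t)))) t := by
    intro t
    have h1 : HasDerivAt (fun t : ℝ => 2 * Real.pi * t) (2 * Real.pi) t := by
      simpa using (hasDerivAt_id t).const_mul (2 * Real.pi)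
    have h2 : HasDerivAt (fun t : ℝ => Real.sin (2 * Real.pi * t))
        (2 * Real.pi * Real.cos (2 * Real.pi * t)) t := by
      have := h1.sin
      convert this using 1
      ring
    have h3 : HasDerivAt hh (deriv hh (X t)) (X t) :=
      (contDiff_hh.differentiable one_ne_zero _).hasDerivAt
    exact h2.add (h3.comp t (hXd t))
  set c : ℝ → ℂ := fun t => z + ρ * v * ((X t : ℂ) + (Y t : ℂ) * I) with hc
  have hcs : ContDiff ℝ 1 c := by
    rw [hc]
    have h1 : ContDiff ℝ 1 fun t => (X t : ℂ) := Complex.ofRealCLM.contDiff.comp hXs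
    have h2 : ContDiff ℝ 1 fun t => (Y t : ℂ) := Complex.ofRealCLM.contDiff.comp hYs
    exact contDiff_const.add (contDiff_const.mul (h1.add (h2.mul contDiff_const)))
  have hpi := Real.pi_pos
  refine ⟨c, ⟨hcs, ?_, ?_, ?_⟩, ?_, ?_⟩
  · intro t
    have h1 : HasDerivAt c (ρ * v * (((-(2 * Real.pi * Real.sin (2 * Real.pi * t)) : ℝ) : ℂ) +
        ((2 * Real.pi * Real.cos (2 * Real.pi * t) +
      deriv hh (X t) * (-(2 * Real.pi * Real.sin (2 * Real.pi * t))) : ℝ) : ℂ) * I)) t := by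
      exact ((((hXd t).ofReal_comp).add (((hYd t).ofReal_comp).mul_const I)).const_mul
        ((ρ : ℂ) * v)).const_add z
    rw [h1.deriv]
    intro h0
    have hρv : (ρ : ℂ) * v ≠ 0 := mul_ne_zero (by exact_mod_cast hρ.ne') hv
    have h2 := (mul_eq_zero.1 h0).resolve_left hρv
    have hre := congrArg Complex.re h2
    have him := congrArg Complex.im h2
    simp only [add_re, ofReal_re, mul_re, I_re, mul_zero, ofReal_im, I_im, mul_one, sub_self,
      add_zero, zero_re, add_im, mul_im, zero_add, zero_im] at hre him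
    have hs : Real.sin (2 * Real.pi * t) = 0 := by
      by_contra h
      apply h
      have : 2 * Real.pi * Real.sin (2 * Real.pi * t) = 0 := by linarith
      rcases mul_eq_zero.1 this with h' | h'
      · linarith
      · exact h'
    rw [hs] at him
    have hcos : Real.cos (2 * Real.pi * t) = 0 := by
      have : 2 * Real.pi * Real.cos (2 * Real.pi * t) = 0 := by simpa using him
      rcases mul_eq_zero.1 this with h' | h'
      · linarith
      · exact h'
    have := Real.sin_sq_add_cos_sq (2 * Real.pi * t)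
    rw [hs, hcos] at this
    norm_num at this
  · intro t
    have h1 : 2 * Real.pi * (t + 1) = 2 * Real.pi * t + 2 * Real.pi := by ring
    have h2 : X (t + 1) = X t := by
      simp only [hX]; rw [h1, Real.cos_add_two_pi]
    have h3 : Y (t + 1) = Y t := by
      simp only [hY]; rw [h2, h1, Real.sin_add_two_pi]
    simp only [hc]
    rw [h2, h3]
  · intro s hs t ht hst
    have hρv : (ρ : ℂ) * v ≠ 0 := mul_ne_zero (by exact_mod_cast hρ.ne') hv
    have h2 : (X s : ℂ) + (Y s : ℂ) * I = (X t : ℂ) + (Y t : ℂ) * I :=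
      mul_left_cancel₀ hρv (add_left_cancel hst)
    have hre := congrArg Complex.re h2
    have him := congrArg Complex.im h2
    simp only [add_re, ofReal_re, mul_re, I_re, mul_zero, ofReal_im, I_im, mul_one, sub_self,
      add_zero, add_im, mul_im, zero_add] at hre him
    have hsin : Real.sin (2 * Real.pi * s) = Real.sin (2 * Real.pi * t) := by
      simp only [hY] at him
      rw [hre] at him
      linarith
    have hang := Real.Angle.cos_sin_inj hre hsin
    obtain ⟨k, hk⟩ := Real.Angle.angle_eq_iff_two_pi_dvd_sub.1 hang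
    have hk' : s - t = k := by
      have : 2 * Real.pi * (s - t) = 2 * Real.pi * k := by linarith
      exact mul_left_cancel₀ (by positivity) this
    have h3 : (-1 : ℝ) < k := by rw [← hk']; linarith [hs.1, ht.2]
    have h4 : (k : ℝ) < 1 := by rw [← hk']; linarith [hs.2, ht.1]
    have h5 : -1 < k := by exact_mod_cast h3
    have h6 : k < 1 := by exact_mod_cast h4
    have h7 : k = 0 := by omega
    rw [h7] at hk'
    simp at hk'
    linarith
  · rintro _ ⟨t, rfl⟩
    rw [mem_closedBall, dist_eq_norm]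
    simp only [hc]
    rw [add_sub_cancel_left, norm_mul, norm_mul, Complex.norm_real, Real.norm_eq_abs,
      abs_of_pos hρ]
    have h1 : ‖(X t : ℂ) + (Y t : ℂ) * I‖ ≤ 3 := by
      have e1 := Complex.norm_le_abs_re_add_abs_im ((X t : ℂ) + (Y t : ℂ) * I)
      simp only [add_re, ofReal_re, mul_re, I_re, mul_zero, ofReal_im, I_im, mul_one, sub_self,
        add_zero, add_im, mul_im, zero_add] at e1
      have e2 : |X t| ≤ 1 := Real.abs_cos_le_one _
      have e3 : |Y t| ≤ 2 := by
        simp only [hY]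
        have := abs_add_le (Real.sin (2 * Real.pi * t)) (hh (X t))
        have := Real.abs_sin_le_one (2 * Real.pi * t)
        have := abs_hh_le (X t)
        linarith
      linarith
    calc ρ * ‖v‖ * ‖(X t : ℂ) + (Y t : ℂ) * I‖ ≤ ρ * ‖v‖ * 3 := by gcongr
      _ = 3 * ρ * ‖v‖ := by ring
  · intro s hs
    set a : ℝ := s / ρ with ha
    have ha1 : |a| ≤ 1 / 2 := by
      rw [ha, abs_div, abs_of_pos hρ, div_le_iff₀ hρ]; linarith
    have ha2 := abs_le.1 ha1
    refine ⟨-Real.arccos a / (2 * Real.pi), ?_⟩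
    have h1 : 2 * Real.pi * (-Real.arccos a / (2 * Real.pi)) = -Real.arccos a := by
      field_simp
    have h2 : X (-Real.arccos a / (2 * Real.pi)) = a := by
      simp only [hX]
      rw [h1, Real.cos_neg, Real.cos_arccos (by linarith [ha2.1]) (by linarith [ha2.2])]
    have h3 : Y (-Real.arccos a / (2 * Real.pi)) = 0 := by
      simp only [hY]
      rw [h2, h1, Real.sin_neg, Real.sin_arccos, hh_eq ha1]
      ring
    simp only [hc]
    rw [h2, h3, ha]
    push_cast
    have : (ρ : ℂ) ≠ 0 := by exact_mod_cast hρ.ne'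
    field_simp
    ring

/-- A continuous injective map of an open set of the line into a `C¹` curve is differentiable
almost everywhere. -/
lemma null_on_curve {γ : ℝ → ℂ} (hγ : IsParam γ) {F : ℝ → ℂ} {S : Set ℝ} (hS : IsOpen S)
    (hF : ContinuousOn F S) (hinj : InjOn F S) (hr : ∀ s ∈ S, F s ∈ range γ) :
    volume {s | s ∈ S ∧ ¬ DifferentiableAt ℝ F s} = 0 := by
  obtain ⟨hγs, hγd, hγp, hγi⟩ := hγ
  have hγi' := R789.C1.inj_of_injOn hγp hγi
  apply measure_null_of_locally_null
  rintro s₀ ⟨hs₀, -⟩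
  obtain ⟨τ₀, hτ₀⟩ := hr s₀ hs₀
  -- the functional
  set L : ℂ → ℝ := fun w => ((starRingEnd ℂ) (deriv γ τ₀) * w).re with hL
  have hLc : Continuous L := by rw [hL]; fun_prop
  have hLder : ∀ {f : ℝ → ℂ} {f' : ℂ} {t : ℝ}, HasDerivAt f f' t →
      HasDerivAt (fun t => L (f t)) (L f') t := by
    intro f f' t h
    have h1 := h.const_mul ((starRingEnd ℂ) (deriv γ τ₀))
    exact (Complex.reCLM.hasFDerivAt.comp_hasDerivAt t h1)
  have hγdd : ∀ t, HasDerivAt γ (deriv γ t) t := fun t =>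
    (hγs.differentiable one_ne_zero t).hasDerivAt
  set p : ℝ → ℝ := fun t => L (γ t) with hpdef
  have hpd : ∀ t, HasDerivAt p (L (deriv γ t)) t := fun t => hLder (hγdd t)
  have hcd : Continuous fun t => L (deriv γ t) := hLc.comp (hγs.continuous_deriv le_rfl)
  have hpos : 0 < L (deriv γ τ₀) := by
    have : L (deriv γ τ₀) = Complex.normSq (deriv γ τ₀) := by
      simp only [hL]
      rw [mul_comm, Complex.mul_conj, Complex.ofReal_re]
    rw [this]
    exact Complex.normSq_pos.2 (hγd τ₀)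
  obtain ⟨δ', hδ', hδp⟩ := Metric.eventually_nhds_iff.1
    ((hcd.tendsto τ₀).eventually (lt_mem_nhds hpos))
  set δ : ℝ := min (δ' / 2) (1 / 4) with hδ
  have hδ0 : 0 < δ := by positivity
  have hδ1 : δ ≤ 1 / 4 := min_le_right _ _
  have hδ2 : δ < δ' := (min_le_left _ _).trans_lt (by linarith)
  have hposI : ∀ t ∈ Icc (τ₀ - δ) (τ₀ + δ), 0 < L (deriv γ t) := by
    intro t ht
    apply hδp
    rw [Real.dist_eq, abs_lt]
    constructor <;> linarith [ht.1, ht.2]
  have hpm : StrictMonoOn p (Icc (τ₀ - δ) (τ₀ + δ)) := by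
    apply strictMonoOn_of_deriv_pos (convex_Icc _ _)
      (fun t _ => (hpd t).continuousAt.continuousWithinAt)
    intro t ht
    rw [(hpd t).deriv]
    exact hposI t (interior_subset ht)
  -- the rest of the curve
  set A : Set ℂ := γ '' (Icc (τ₀ - 1 / 2) (τ₀ + 1 / 2) \ Ioo (τ₀ - δ) (τ₀ + δ)) with hA
  have hAc : IsCompact A := (isCompact_Icc.diff isOpen_Ioo).image hγs.continuous
  have hnA : F s₀ ∉ A := by
    rintro ⟨τ, ⟨h1, h2⟩, h3⟩
    rw [← hτ₀] at h3
    rcases lt_trichotomy τ τ₀ with h | h | h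
    · exact hγi' τ τ₀ h (by linarith [h1.1]) h3
    · exact h2 ⟨by linarith, by linarith⟩
    · exact hγi' τ₀ τ h (by linarith [h1.2]) h3.symm
  have hcs₀ : ContinuousAt F s₀ := hF.continuousAt (hS.mem_nhds hs₀)
  have hev : ∀ᶠ s in 𝓝 s₀, s ∈ S ∧ F s ∈ Aᶜ :=
    (hS.eventually_mem hs₀).and
      (hcs₀.eventually (hAc.isClosed.isOpen_compl.mem_nhds hnA))
  obtain ⟨ε, hε, hev⟩ := Metric.eventually_nhds_iff.1 hev
  have hJ : ∀ s ∈ Icc (s₀ - ε / 2) (s₀ + ε / 2), s ∈ S ∧ F s ∈ Aᶜ := by
    intro s hs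
    apply hev
    rw [Real.dist_eq, abs_lt]
    constructor <;> linarith [hs.1, hs.2]
  have hP : Function.Periodic γ 1 := hγp
  have hτ : ∀ s ∈ Icc (s₀ - ε / 2) (s₀ + ε / 2), ∃ τ ∈ Ioo (τ₀ - δ) (τ₀ + δ), γ τ = F s := by
    intro s hs
    obtain ⟨t, ht⟩ := hr s (hJ s hs).1
    obtain ⟨y, hy, hyt⟩ := hP.exists_mem_Ico one_pos t (τ₀ - 1 / 2)
    refine ⟨y, ?_, by rw [← hyt, ht]⟩
    by_contra hcon
    apply (hJ s hs).2
    exact ⟨y, ⟨⟨hy.1, by linarith [hy.2]⟩, hcon⟩, by rw [← hyt, ht]⟩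
  set q : ℝ → ℝ := fun s => L (F s) with hq
  have hqinj : InjOn q (Icc (s₀ - ε / 2) (s₀ + ε / 2)) := by
    intro s hs t ht hst
    obtain ⟨a, ha, ha'⟩ := hτ s hs
    obtain ⟨b, hb, hb'⟩ := hτ t ht
    have h1 : p a = p b := by
      simp only [hpdef]
      rw [ha', hb']
      exact hst
    have h2 := hpm.injOn (Ioo_subset_Icc_self ha) (Ioo_subset_Icc_self hb) h1
    apply hinj (hJ s hs).1 (hJ t ht).1
    rw [← ha', ← hb', h2]
  have hqc : ContinuousOn q (Icc (s₀ - ε / 2) (s₀ + ε / 2)) :=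
    hLc.comp_continuousOn (hF.mono fun s hs => (hJ s hs).1)
  -- differentiability of `q`
  have hqd : volume {s | s ∈ Ioo (s₀ - ε / 2) (s₀ + ε / 2) ∧ ¬ DifferentiableAt ℝ q s} = 0 := by
    have h1 : ∀ᵐ s ∂(volume.restrict (Icc (s₀ - ε / 2) (s₀ + ε / 2))),
        DifferentiableWithinAt ℝ q (Icc (s₀ - ε / 2) (s₀ + ε / 2)) s := by
      rcases hqc.strictMonoOn_of_injOn_Icc' (by linarith) hqinj with h | h
      · exact h.monotoneOn.ae_differentiableWithinAt measurableSet_Icc
      · have h2 : MonotoneOn (fun s => - q s) (Icc (s₀ - ε / 2) (s₀ + ε / 2)) :=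
          fun a ha b hb hab => neg_le_neg (h.antitoneOn ha hb hab)
        filter_upwards [h2.ae_differentiableWithinAt measurableSet_Icc] with s hs
        simpa using hs.neg
    rw [ae_restrict_iff' measurableSet_Icc] at h1
    refine measure_mono_null ?_ (ae_iff.1 h1)
    rintro s ⟨hs1, hs2⟩
    simp only [mem_ofPred_eq, Classical.not_imp]
    refine ⟨Ioo_subset_Icc_self hs1, fun h => hs2 ?_⟩
    exact h.differentiableAt (Icc_mem_nhds hs1.1 hs1.2)
  -- conclusion
  refine ⟨{s | s ∈ S ∧ ¬ DifferentiableAt ℝ F s} ∩ Ioo (s₀ - ε / 2) (s₀ + ε / 2), ?_, ?_⟩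
  · exact inter_mem_nhdsWithin _ (Ioo_mem_nhds (by linarith) (by linarith))
  · refine measure_mono_null ?_ hqd
    rintro s ⟨⟨hs1, hs2⟩, hs3⟩
    refine ⟨hs3, fun hqs => hs2 ?_⟩
    obtain ⟨τ, hτI, hτs⟩ := hτ s (Ioo_subset_Icc_self hs3)
    have hstrict : HasStrictDerivAt p (L (deriv γ τ)) τ := by
      have h1 : HasStrictDerivAt γ (deriv γ τ) τ :=
        hγs.contDiffAt.hasStrictDerivAt one_ne_zero
      have h2 := h1.const_mul ((starRingEnd ℂ) (deriv γ τ₀))
      exact (Complex.reCLM.hasStrictFDerivAt.comp_hasStrictDerivAt τ h2)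
    have hne : L (deriv γ τ) ≠ 0 := (hposI τ (Ioo_subset_Icc_self hτI)).ne'
    set k := hstrict.localInverse p (L (deriv γ τ)) τ hne with hk
    have hk1 : HasStrictDerivAt k (L (deriv γ τ))⁻¹ (p τ) := hstrict.to_localInverse hne
    have hk2 : ∀ᶠ y in 𝓝 (p τ), p (k y) = y :=
      hstrict.hasStrictFDerivAt_equiv hne |>.eventually_right_inverse
    have hk3 : k (p τ) = τ := by
      exact (hstrict.hasStrictFDerivAt_equiv hne).localInverse_apply_image
    have hqs' : q s = p τ := by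
      simp only [hq, hpdef]; rw [hτs]
    have hqc' : ContinuousAt q s := hqs.continuousAt
    have e1 : ∀ᶠ s' in 𝓝 s, p (k (q s')) = q s' := by
      rw [← hqs'] at hk2
      exact hqc'.eventually hk2
    have e2 : ∀ᶠ s' in 𝓝 s, k (q s') ∈ Ioo (τ₀ - δ) (τ₀ + δ) := by
      have h1 : ContinuousAt (fun s' => k (q s')) s := by
        apply ContinuousAt.comp _ hqc'
        rw [hqs']
        exact hk1.hasDerivAt.continuousAt
      apply h1.eventually (isOpen_Ioo.mem_nhds _)
      change k (q s) ∈ Ioo (τ₀ - δ) (τ₀ + δ)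
      rw [hqs', hk3]
      exact hτI
    have e3 : ∀ᶠ s' in 𝓝 s, s' ∈ Ioo (s₀ - ε / 2) (s₀ + ε / 2) := isOpen_Ioo.mem_nhds hs3
    have e4 : F =ᶠ[𝓝 s] fun s' => γ (k (q s')) := by
      filter_upwards [e1, e2, e3] with s' h1 h2 h3
      obtain ⟨τ', hτ'I, hτ's⟩ := hτ s' (Ioo_subset_Icc_self h3)
      have h4 : p τ' = q s' := by
        simp only [hq, hpdef]; rw [hτ's]
      have h5 : k (q s') = τ' := by
        apply hpm.injOn (Ioo_subset_Icc_self h2) (Ioo_subset_Icc_self hτ'I)
        rw [h1, h4]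
      rw [h5, hτ's]
    have e5 : DifferentiableAt ℝ (fun s' => γ (k (q s'))) s := by
      have h1 : DifferentiableAt ℝ k (q s) := by
        rw [hqs']; exact hk1.hasDerivAt.differentiableAt
      exact (hγs.differentiable one_ne_zero _).comp s (h1.comp s hqs)
    exact e5.congr_of_eventuallyEq e4

end Pool.Agent.T6.H56.GL
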