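import Mathlib

/-!
# Linear density points of closed sets in the plane

Almost every point `z` of a closed set `E` of the plane has the property that for all small `r` the
set `E` meets the four segments `z ± [r, 2 r]`, `z ± [r, 2 r] i`.
-/

set_option autoImplicit false

open MeasureTheory Filter Topology Set Metric Complex
open scoped Pointwise

namespace Pool.Agent.T6.H56.GL

/-- a measurable set with null horizontal sections is null -/
lemma null_of_horizontal {A : Set ℂ} (hA : MeasurableSet A)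
    (h : ∀ y : ℝ, ∀ᵐ x : ℝ, ((x : ℂ) + (y : ℂ) * I) ∉ A) : volume A = 0 := by
  rw [← (Complex.volume_preserving_equiv_real_prod.symm).measure_preimage hA.nullMeasurableSet]
  have hm : MeasurableSet (measurableEquivRealProd.symm ⁻¹' A) :=
    measurableEquivRealProd.symm.measurable hA
  rw [Measure.volume_eq_prod, Measure.prod_apply_symm hm]
  have h1 : ∀ y : ℝ, volume ((fun x : ℝ => (x, y)) ⁻¹' (measurableEquivRealProd.symm ⁻¹' A)) = 0 := by
    intro y
    have h2 := h y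
    rw [ae_iff] at h2
    refine measure_mono_null ?_ h2
    intro x hx
    simp only [mem_ofPred_eq, not_not]
    have : measurableEquivRealProd.symm (x, y) = (x : ℂ) + (y : ℂ) * I := by
      apply Complex.ext <;> simp
    rw [← this]
    exact hx
  simp [h1]

/-- a measurable set with null vertical sections is null -/
lemma null_of_vertical {A : Set ℂ} (hA : MeasurableSet A)
    (h : ∀ x : ℝ, ∀ᵐ y : ℝ, ((x : ℂ) + (y : ℂ) * I) ∉ A) : volume A = 0 := by
  rw [← (Complex.volume_preserving_equiv_real_prod.symm).measure_preimage hA.nullMeasurableSet]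
  have hm : MeasurableSet (measurableEquivRealProd.symm ⁻¹' A) :=
    measurableEquivRealProd.symm.measurable hA
  rw [Measure.volume_eq_prod, Measure.prod_apply hm]
  have h1 : ∀ x : ℝ, volume (Prod.mk x ⁻¹' (measurableEquivRealProd.symm ⁻¹' A)) = 0 := by
    intro x
    have h2 := h x
    rw [ae_iff] at h2
    refine measure_mono_null ?_ h2
    intro y hy
    simp only [mem_ofPred_eq, not_not]
    have : measurableEquivRealProd.symm (x, y) = (x : ℂ) + (y : ℂ) * I := by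
      apply Complex.ext <;> simp
    rw [← this]
    exact hy
  simp [h1]

/-- One-dimensional density: almost every point `x` of a closed set `E` is such that `E` meets
`[x + r, x + 2 r]` and `[x - 2 r, x - r]` for all small `r`. -/
lemma ae_dense_line {E : Set ℝ} (hE : MeasurableSet E) : ∀ᵐ x : ℝ, x ∈ E →
    ∃ ρ : ℝ, 0 < ρ ∧ ∀ r : ℝ, 0 < r → r ≤ ρ →
      (∃ t ∈ Icc (1 : ℝ) 2, x + r * t ∈ E) ∧ ∃ t ∈ Icc (1 : ℝ) 2, x - r * t ∈ E := by
  have h := Besicovitch.ae_tendsto_measure_inter_div (volume : Measure ℝ) E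
  rw [ae_restrict_iff' hE] at h
  filter_upwards [h] with x hx hxE
  have h1 := hx hxE
  have h2 : ∀ᶠ r : ℝ in 𝓝[>] 0, 3 / 4 < volume (E ∩ closedBall x r) / volume (closedBall x r) := by
    refine h1.eventually_const_lt ?_
    rw [ENNReal.div_lt_iff (by simp) (by simp)]
    norm_num
  rw [eventually_nhdsWithin_iff, Metric.eventually_nhds_iff] at h2
  obtain ⟨ε, hε, h3⟩ := h2
  refine ⟨ε / 4, by positivity, fun r hr hr' => ?_⟩
  have h4 : 3 / 4 < volume (E ∩ closedBall x (2 * r)) / volume (closedBall x (2 * r)) := by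
    apply h3
    · rw [Real.dist_eq, sub_zero, abs_of_pos (by positivity)]
      linarith
    · exact (by positivity : (0 : ℝ) < 2 * r)
  rw [Real.volume_closedBall] at h4
  have h5 : ENNReal.ofReal (3 * r) < volume (E ∩ closedBall x (2 * r)) := by
    have h6 := (ENNReal.lt_div_iff_mul_lt (Or.inl (by simp [hr])) (Or.inl ENNReal.ofReal_ne_top)).1 h4
    have h7 : (3 / 4 : ENNReal) * ENNReal.ofReal (2 * (2 * r)) = ENNReal.ofReal (3 * r) := by
      have : (3 / 4 : ENNReal) = ENNReal.ofReal (3 / 4) := by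
        rw [ENNReal.ofReal_div_of_pos (by norm_num)]
        norm_num
      rw [this, ← ENNReal.ofReal_mul (by norm_num)]
      congr 1
      ring
    rwa [h7] at h6
  constructor
  · by_contra hc
    push Not at hc
    have h8 : E ∩ closedBall x (2 * r) ⊆ Icc (x - 2 * r) (x + r) := by
      rintro y ⟨hyE, hy⟩
      rw [Real.closedBall_eq_Icc] at hy
      refine ⟨hy.1, ?_⟩
      by_contra hyr
      push Not at hyr
      refine hc ((y - x) / r) ⟨?_, ?_⟩ ?_
      · rw [le_div_iff₀ hr]; linarith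
      · rw [div_le_iff₀ hr]; linarith [hy.2]
      · rw [mul_div_cancel₀ _ hr.ne']
        simpa using hyE
    have h9 := h5.trans_le (measure_mono h8)
    rw [Real.volume_Icc] at h9
    have : x + r - (x - 2 * r) = 3 * r := by ring
    rw [this] at h9
    exact lt_irrefl _ h9
  · by_contra hc
    push Not at hc
    have h8 : E ∩ closedBall x (2 * r) ⊆ Icc (x - r) (x + 2 * r) := by
      rintro y ⟨hyE, hy⟩
      rw [Real.closedBall_eq_Icc] at hy
      refine ⟨?_, hy.2⟩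
      by_contra hyr
      push Not at hyr
      refine hc ((x - y) / r) ⟨?_, ?_⟩ ?_
      · rw [le_div_iff₀ hr]; linarith
      · rw [div_le_iff₀ hr]; linarith [hy.1]
      · rw [mul_div_cancel₀ _ hr.ne']
        simpa using hyE
    have h9 := h5.trans_le (measure_mono h8)
    rw [Real.volume_Icc] at h9
    have : x + 2 * r - (x - r) = 3 * r := by ring
    rw [this] at h9
    exact lt_irrefl _ h9

/-- The points `z` such that `E` meets `z + [r, 2 r] v` for all `0 < r ≤ 1 / (m + 1)`. -/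
def NN (E : Set ℂ) (v : ℂ) (m : ℕ) : Set ℂ :=
  {z | ∀ r : ℝ, 0 < r → r ≤ 1 / ((m : ℝ) + 1) → ∃ t ∈ Icc (1 : ℝ) 2, z + (r * t : ℝ) * v ∈ E}

lemma isClosed_NN {E : Set ℂ} (hE : IsClosed E) (v : ℂ) (m : ℕ) : IsClosed (NN E v m) := by
  have h1 : NN E v m = ⋂ (r : ℝ) (_ : 0 < r) (_ : r ≤ 1 / ((m : ℝ) + 1)),
      {z | ∃ t ∈ Icc (1 : ℝ) 2, z + (r * t : ℝ) * v ∈ E} := by
    ext z
    simp [NN]
  rw [h1]
  refine isClosed_iInter fun r => isClosed_iInter fun _ => isClosed_iInter fun _ => ?_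
  have h2 : {z : ℂ | ∃ t ∈ Icc (1 : ℝ) 2, z + (r * t : ℝ) * v ∈ E} =
      E + (fun t : ℝ => -((r * t : ℝ) * v)) '' Icc (1 : ℝ) 2 := by
    ext z
    rw [Set.mem_add]
    constructor
    · rintro ⟨t, ht, hz⟩
      exact ⟨_, hz, _, ⟨t, ht, rfl⟩, by simp⟩
    · rintro ⟨a, ha, b, ⟨t, ht, rfl⟩, rfl⟩
      refine ⟨t, ht, ?_⟩
      simpa using ha
  rw [h2]
  apply hE.add_right_of_isCompact
  apply isCompact_Icc.image
  fun_prop

/-- **Linear density points.** -/
lemma ae_dense {E : Set ℂ} (hE : IsClosed E) : ∀ᵐ z : ℂ, z ∈ E →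
    ∃ ρ : ℝ, 0 < ρ ∧ ∀ r : ℝ, 0 < r → r ≤ ρ →
      (∃ t ∈ Icc (1 : ℝ) 2, z + (r * t : ℝ) ∈ E) ∧ (∃ t ∈ Icc (1 : ℝ) 2, z - (r * t : ℝ) ∈ E) ∧
      (∃ t ∈ Icc (1 : ℝ) 2, z + (r * t : ℝ) * I ∈ E) ∧
      (∃ t ∈ Icc (1 : ℝ) 2, z - (r * t : ℝ) * I ∈ E) := by
  have hex : ∀ ρ : ℝ, 0 < ρ → ∃ m : ℕ, 1 / ((m : ℝ) + 1) ≤ ρ := by
    intro ρ hρ
    obtain ⟨m, hm⟩ := exists_nat_one_div_lt hρ
    exact ⟨m, hm.le⟩
  have hmeas : ∀ v : ℂ, MeasurableSet (E \ ⋃ m, NN E v m) := fun v =>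
    hE.measurableSet.diff (MeasurableSet.iUnion fun m => (isClosed_NN hE v m).measurableSet)
  have h1 : volume (E \ ⋃ m, NN E 1 m) = 0 ∧ volume (E \ ⋃ m, NN E (-1) m) = 0 := by
    constructor <;> refine null_of_horizontal (hmeas _) fun y => ?_ <;>
      (have hcont : Continuous fun x : ℝ => (x : ℂ) + (y : ℂ) * I := by fun_prop) <;>
      filter_upwards [ae_dense_line (hE.preimage hcont).measurableSet] with x hx <;>
      rintro ⟨hx1, hx2⟩ <;> obtain ⟨ρ, hρ, h⟩ := hx hx1 <;>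
      obtain ⟨m, hm⟩ := hex ρ hρ <;> apply hx2 <;> rw [mem_iUnion] <;>
      refine ⟨m, fun r hr hr' => ?_⟩
    · obtain ⟨⟨t, ht, h3⟩, _⟩ := h r hr (hr'.trans hm)
      refine ⟨t, ht, ?_⟩
      have h3' : (((x + r * t : ℝ) : ℂ) + (y : ℂ) * I) ∈ E := h3
      convert h3' using 1
      push_cast; ring
    · obtain ⟨_, ⟨t, ht, h3⟩⟩ := h r hr (hr'.trans hm)
      refine ⟨t, ht, ?_⟩
      have h3' : (((x - r * t : ℝ) : ℂ) + (y : ℂ) * I) ∈ E := h3
      convert h3' using 1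
      push_cast; ring
  have h2 : volume (E \ ⋃ m, NN E I m) = 0 ∧ volume (E \ ⋃ m, NN E (-I) m) = 0 := by
    constructor <;> refine null_of_vertical (hmeas _) fun x => ?_ <;>
      (have hcont : Continuous fun y : ℝ => (x : ℂ) + (y : ℂ) * I := by fun_prop) <;>
      filter_upwards [ae_dense_line (hE.preimage hcont).measurableSet] with y hy <;>
      rintro ⟨hx1, hx2⟩ <;> obtain ⟨ρ, hρ, h⟩ := hy hx1 <;>
      obtain ⟨m, hm⟩ := hex ρ hρ <;> apply hx2 <;> rw [mem_iUnion] <;>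
      refine ⟨m, fun r hr hr' => ?_⟩
    · obtain ⟨⟨t, ht, h3⟩, _⟩ := h r hr (hr'.trans hm)
      refine ⟨t, ht, ?_⟩
      have h3' : ((x : ℂ) + ((y + r * t : ℝ) : ℂ) * I) ∈ E := h3
      convert h3' using 1
      push_cast; ring
    · obtain ⟨_, ⟨t, ht, h3⟩⟩ := h r hr (hr'.trans hm)
      refine ⟨t, ht, ?_⟩
      have h3' : ((x : ℂ) + ((y - r * t : ℝ) : ℂ) * I) ∈ E := h3
      convert h3' using 1
      push_cast; ring
  have key : ∀ v : ℂ, volume (E \ ⋃ m, NN E v m) = 0 → ∀ᵐ z : ℂ, z ∈ E → ∃ m, z ∈ NN E v m := by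
    intro v hv
    rw [ae_iff]
    refine measure_mono_null ?_ hv
    intro z hz
    simp only [mem_ofPred_eq, Classical.not_imp, not_exists] at hz
    refine ⟨hz.1, ?_⟩
    rw [mem_iUnion]
    rintro ⟨m, hm⟩
    exact hz.2 m hm
  filter_upwards [key 1 h1.1, key (-1) h1.2, key I h2.1, key (-I) h2.2] with z k1 k2 k3 k4 hz
  obtain ⟨m1, k1⟩ := k1 hz
  obtain ⟨m2, k2⟩ := k2 hz
  obtain ⟨m3, k3⟩ := k3 hz
  obtain ⟨m4, k4⟩ := k4 hz
  refine ⟨min (min (1 / ((m1 : ℝ) + 1)) (1 / ((m2 : ℝ) + 1)))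
    (min (1 / ((m3 : ℝ) + 1)) (1 / ((m4 : ℝ) + 1))), by positivity, fun r hr hr' => ?_⟩
  rw [le_min_iff, le_min_iff, le_min_iff] at hr'
  obtain ⟨t1, ht1, g1⟩ := k1 r hr hr'.1.1
  obtain ⟨t2, ht2, g2⟩ := k2 r hr hr'.1.2
  obtain ⟨t3, ht3, g3⟩ := k3 r hr hr'.2.1
  obtain ⟨t4, ht4, g4⟩ := k4 r hr hr'.2.2
  refine ⟨⟨t1, ht1, ?_⟩, ⟨t2, ht2, ?_⟩, ⟨t3, ht3, ?_⟩, ⟨t4, ht4, ?_⟩⟩
  · simpa using g1
  · rw [sub_eq_add_neg, ← mul_neg_one]; exact g2
  · exact g3
  · rw [sub_eq_add_neg, ← mul_neg]; exact g4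

end Pool.Agent.T6.H56.GL
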