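import Pool.Agent.T6.H56.GL.Curve

/-!
# Homeomorphisms of surfaces which preserve `C¹` curves are differentiable almost everywhere
-/

set_option autoImplicit false

open MeasureTheory Filter Topology Set Metric Complex
open scoped Manifold ContDiff

namespace Pool.Agent.T6.H56.GL

/-- differentiability almost everywhere on lines -/
lemma null_on_line {U : Set ℂ} (hU : IsOpen U) {g : ℂ → ℂ} (hg : ContinuousOn g U)
    (hinj : InjOn g U)
    (hcurve : ∀ γ, IsParam γ → range γ ⊆ U → ∃ γ', IsParam γ' ∧ g '' range γ = range γ')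
    (z v : ℂ) (hv : v ≠ 0) {S : Set ℝ} (hS : IsOpen S) (hSU : ∀ s ∈ S, z + s * v ∈ U) :
    volume {s : ℝ | s ∈ S ∧ ¬ DifferentiableAt ℝ (fun s : ℝ => g (z + s * v)) s} = 0 := by
  apply measure_null_of_locally_null
  rintro s₀ ⟨hs₀, -⟩
  obtain ⟨R, hR, hRU⟩ := Metric.nhds_basis_closedBall.mem_iff.1 (hU.mem_nhds (hSU s₀ hs₀))
  obtain ⟨η, hη, hηS⟩ := Metric.isOpen_iff.1 hS s₀ hs₀
  have hv0 : 0 < ‖v‖ := norm_pos_iff.2 hv
  set ρ : ℝ := min (R / (3 * ‖v‖)) η with hρ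
  have hρ0 : 0 < ρ := by positivity
  obtain ⟨c, hc1, hc2, hc3⟩ := exists_param (z + s₀ * v) v hv hρ0
  have hcU : range c ⊆ U := by
    refine hc2.trans ((closedBall_subset_closedBall ?_).trans hRU)
    calc 3 * ρ * ‖v‖ ≤ 3 * (R / (3 * ‖v‖)) * ‖v‖ := by
          gcongr; exact min_le_left _ _
      _ = R := by field_simp
  obtain ⟨γ', hγ', he⟩ := hcurve c hc1 hcU
  have hsub : ∀ s ∈ Ioo (s₀ - ρ / 2) (s₀ + ρ / 2), s ∈ S := by
    intro s hs
    apply hηS
    have : ρ ≤ η := min_le_right _ _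
    rw [mem_ball, Real.dist_eq, abs_lt]
    constructor <;> linarith [hs.1, hs.2]
  have hnull := null_on_curve hγ' (F := fun s : ℝ => g (z + s * v))
    (S := Ioo (s₀ - ρ / 2) (s₀ + ρ / 2)) isOpen_Ioo
    (hg.comp (by fun_prop) fun s hs => hSU s (hsub s hs))
    (by
      intro a ha b hb hab
      have h1 := hinj (hSU a (hsub a ha)) (hSU b (hsub b hb)) hab
      have h2 := mul_right_cancel₀ hv (add_left_cancel h1)
      exact_mod_cast h2)
    (by
      intro s hs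
      rw [← he]
      refine ⟨_, hc3 (s - s₀) ?_, ?_⟩
      · rw [abs_le]; constructor <;> linarith [hs.1, hs.2]
      · congr 1
        push_cast; ring)
  refine ⟨{s : ℝ | s ∈ S ∧ ¬ DifferentiableAt ℝ (fun s : ℝ => g (z + s * v)) s} ∩
    Ioo (s₀ - ρ / 2) (s₀ + ρ / 2), inter_mem_nhdsWithin _ (Ioo_mem_nhds (by linarith)
      (by linarith)), ?_⟩
  refine measure_mono_null ?_ hnull
  rintro s ⟨⟨_, h1⟩, h2⟩
  exact ⟨h2, h1⟩

/-- the projection to a box -/
noncomputable def clamp (z₀ : ℂ) (R : ℝ) (z : ℂ) : ℂ :=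
  ((max (z₀.re - R) (min (z₀.re + R) z.re) : ℝ) : ℂ) +
    ((max (z₀.im - R) (min (z₀.im + R) z.im) : ℝ) : ℂ) * I

lemma continuous_clamp (z₀ : ℂ) (R : ℝ) : Continuous (clamp z₀ R) := by
  unfold clamp
  fun_prop

lemma clamp_mem (z₀ : ℂ) {R : ℝ} (hR : 0 < R) (z : ℂ) : clamp z₀ R z ∈ closedBall z₀ (2 * R) := by
  rw [mem_closedBall, dist_eq_norm]
  refine (Complex.norm_le_abs_re_add_abs_im _).trans ?_
  have h1 : |(clamp z₀ R z - z₀).re| ≤ R := by
    simp only [clamp, sub_re, add_re, ofReal_re, mul_re, I_re, mul_zero, ofReal_im, I_im, mul_one,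
      sub_self, add_zero]
    rw [abs_le]
    constructor
    · have := le_max_left (z₀.re - R) (min (z₀.re + R) z.re)
      linarith
    · have : max (z₀.re - R) (min (z₀.re + R) z.re) ≤ z₀.re + R :=
        max_le (by linarith) (min_le_left _ _)
      linarith
  have h2 : |(clamp z₀ R z - z₀).im| ≤ R := by
    simp only [clamp, sub_im, add_im, ofReal_im, mul_im, I_re, mul_zero, ofReal_re, I_im, mul_one,
      zero_add, add_zero]
    rw [abs_le]
    constructor
    · have := le_max_left (z₀.im - R) (min (z₀.im + R) z.im)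
      linarith
    · have : max (z₀.im - R) (min (z₀.im + R) z.im) ≤ z₀.im + R :=
        max_le (by linarith) (min_le_left _ _)
      linarith
  linarith

/-- the open box -/
def box (z₀ : ℂ) (R : ℝ) : Set ℂ := {z | |z.re - z₀.re| < R ∧ |z.im - z₀.im| < R}

lemma isOpen_box (z₀ : ℂ) (R : ℝ) : IsOpen (box z₀ R) := by
  apply IsOpen.inter
  · exact isOpen_lt (f := fun z : ℂ => |z.re - z₀.re|) (by fun_prop) continuous_const
  · exact isOpen_lt (f := fun z : ℂ => |z.im - z₀.im|) (by fun_prop) continuous_const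

lemma clamp_eq {z₀ : ℂ} {R : ℝ} {z : ℂ} (hz : z ∈ box z₀ R) : clamp z₀ R z = z := by
  have h1 := abs_lt.1 hz.1
  have h2 := abs_lt.1 hz.2
  unfold clamp
  rw [min_eq_right (by linarith), max_eq_right (by linarith), min_eq_right (by linarith),
    max_eq_right (by linarith)]
  exact Complex.re_add_im z

/-- **The planar case.** -/
theorem planar_main {U : Set ℂ} (hU : IsOpen U) {g : ℂ → ℂ} (hg : ContinuousOn g U)
    (hinj : InjOn g U) (hop : ∀ V ⊆ U, IsOpen V → IsOpen (g '' V))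
    (hcurve : ∀ γ, IsParam γ → range γ ⊆ U → ∃ γ', IsParam γ' ∧ g '' range γ = range γ') :
    volume {z | z ∈ U ∧ ¬ DifferentiableAt ℝ g z} = 0 := by
  apply measure_null_of_locally_null
  rintro z₀ ⟨hz₀, -⟩
  obtain ⟨R', hR', hRU'⟩ := Metric.nhds_basis_closedBall.mem_iff.1 (hU.mem_nhds hz₀)
  set R : ℝ := R' / 2 with hR
  have hR0 : 0 < R := by positivity
  have hclU : ∀ z, clamp z₀ R z ∈ U := by
    intro z
    apply hRU'
    have := clamp_mem z₀ hR0 z
    rwa [hR, mul_div_cancel₀ _ two_ne_zero] at this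
  set B := box z₀ R with hB
  have hBo : IsOpen B := isOpen_box _ _
  have hBU : B ⊆ U := by
    intro z hz
    rw [← clamp_eq hz]
    exact hclU z
  set u : ℂ → ℂ := fun z => g (clamp z₀ R z) with hu
  have huc : Continuous u := hg.comp_continuous (continuous_clamp _ _) hclU
  have hug : ∀ z ∈ B, u z = g z := fun z hz => by
    simp only [hu]; rw [clamp_eq hz]
  have huopen : ∀ V ⊆ B, IsOpen V → IsOpen (u '' V) := by
    intro V hV hVo
    have : u '' V = g '' V := image_congr fun z hz => hug z (hV hz)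
    rw [this]
    exact hop V (hV.trans hBU) hVo
  have hlin : ∀ (z v : ℂ), v ≠ 0 → ∀ᵐ x : ℝ, z + x * v ∈ B →
      DifferentiableAt ℝ (fun s : ℝ => u ((z + x * v) + s * v)) 0 := by
    intro z v hv
    have hcont : Continuous fun x : ℝ => z + x * v := by fun_prop
    have hSo : IsOpen {x : ℝ | z + x * v ∈ B} := hBo.preimage hcont
    have h1 := null_on_line hU hg hinj hcurve z v hv hSo (fun s hs => hBU hs)
    have h2 := measure_eq_zero_iff_ae_notMem.1 h1
    filter_upwards [h2] with x hx hxB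
    have h3 : DifferentiableAt ℝ (fun s : ℝ => g (z + s * v)) x := by
      by_contra h
      exact hx ⟨hxB, h⟩
    have h4 : DifferentiableAt ℝ (fun s : ℝ => g (z + ((x + s : ℝ) : ℂ) * v)) 0 := by
      have h5 : DifferentiableAt ℝ (fun s : ℝ => x + s) 0 := by fun_prop
      have h6 : DifferentiableAt ℝ (fun s : ℝ => g (z + s * v)) ((fun s : ℝ => x + s) 0) := by
        simpa using h3
      exact h6.comp (0 : ℝ) h5
    refine h4.congr_of_eventuallyEq ?_
    have h7 : ∀ᶠ s : ℝ in 𝓝 0, (z + x * v) + s * v ∈ B := by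
      have h8 : Continuous fun s : ℝ => (z + x * v) + s * v := by fun_prop
      apply h8.continuousAt.eventually
      apply hBo.mem_nhds
      simpa using hxB
    filter_upwards [h7] with s hs
    rw [hug _ hs]
    congr 1
    push_cast
    ring
  have hae : ∀ᵐ z : ℂ, z ∈ B → DifferentiableAt ℝ u z := by
    apply gehring_lehto huc hBo huopen
    · intro y
      filter_upwards [hlin ((y : ℂ) * I) 1 one_ne_zero] with x hx hxB
      have e : (y : ℂ) * I + x * 1 = x + y * I := by ring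
      rw [e] at hx
      exact hx hxB
    · intro x
      filter_upwards [hlin (x : ℂ) I I_ne_zero] with y hy hyB
      exact hy hyB
  refine ⟨{z | z ∈ U ∧ ¬ DifferentiableAt ℝ g z} ∩ B, inter_mem_nhdsWithin _ (hBo.mem_nhds ?_), ?_⟩
  · refine ⟨?_, ?_⟩ <;> simpa using hR0
  · refine measure_mono_null ?_ (ae_iff.1 hae)
    rintro z ⟨⟨_, h1⟩, h2⟩
    simp only [mem_ofPred_eq, Classical.not_imp]
    refine ⟨h2, fun h => h1 (h.congr_of_eventuallyEq ?_)⟩
    filter_upwards [hBo.mem_nhds h2] with w hw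
    exact (hug w hw).symm

variable {S : Type*} [TopologicalSpace S] [ChartedSpace ℂ S]

/-- the image of a `C¹` curve under the inverse of a chart -/
lemma isC1Curve_symm {e : OpenPartialHomeomorph S ℂ}
    (he : e ∈ IsManifold.maximalAtlas 𝓘(ℝ, ℂ) ∞ S) {γ : ℝ → ℂ} (hγ : IsParam γ)
    (hr : range γ ⊆ e.target) : R789.C1.IsC1Curve (e.symm '' range γ) := by
  obtain ⟨h1, h2, h3, h4⟩ := hγ
  have hm : ContMDiff 𝓘(ℝ, ℝ) 𝓘(ℝ, ℂ) 1 (fun t => e.symm (γ t)) := by
    intro t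
    have a1 : ContMDiffAt 𝓘(ℝ, ℝ) 𝓘(ℝ, ℂ) 1 γ t := (contMDiff_iff_contDiff.2 h1) t
    have a2 : ContMDiffAt 𝓘(ℝ, ℂ) 𝓘(ℝ, ℂ) 1 e.symm (γ t) :=
      (contMDiffAt_symm_of_mem_maximalAtlas he (hr ⟨t, rfl⟩)).of_le (by
        exact_mod_cast le_top)
    exact a2.comp t a1
  refine ⟨fun t => e.symm (γ t), hm, ?_, fun t => by simp only [h3], ?_, ?_⟩
  · intro t h0
    apply h2 t
    have a1 : MDifferentiableAt 𝓘(ℝ, ℝ) 𝓘(ℝ, ℂ) (fun t => e.symm (γ t)) t :=
      (hm t).mdifferentiableAt one_ne_zero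
    have a2 : MDifferentiableAt 𝓘(ℝ, ℂ) 𝓘(ℝ, ℂ) e (e.symm (γ t)) :=
      (contMDiffAt_of_mem_maximalAtlas he (e.map_target (hr ⟨t, rfl⟩))).mdifferentiableAt
        (by simp)
    have a3 : mfderiv 𝓘(ℝ, ℝ) 𝓘(ℝ, ℂ) (e ∘ fun t => e.symm (γ t)) t = 0 := by
      rw [mfderiv_comp t a2 a1, h0]
      exact ContinuousLinearMap.comp_zero _
    have a4 : (e ∘ fun t => e.symm (γ t)) = γ := by
      funext t
      exact e.right_inv (hr ⟨t, rfl⟩)
    rw [a4, mfderiv_eq_fderiv] at a3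
    have a5 : fderiv ℝ γ t = 0 := a3
    change fderiv ℝ γ t 1 = 0
    rw [a5]; rfl
  · intro s hs t ht hst
    exact h4 hs ht (e.symm.injOn (hr ⟨s, rfl⟩) (hr ⟨t, rfl⟩) hst)
  · rw [← range_comp]; rfl

/-- the image of a `C¹` curve under a chart -/
lemma isParam_chart {e : OpenPartialHomeomorph S ℂ}
    (he : e ∈ IsManifold.maximalAtlas 𝓘(ℝ, ℂ) ∞ S) {Γ : Set S} (hΓ : R789.C1.IsC1Curve Γ)
    (hr : Γ ⊆ e.source) : ∃ γ, IsParam γ ∧ e '' Γ = range γ := by
  obtain ⟨γ, h1, h2, h3, h4, rfl⟩ := hΓ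
  have hm : ContMDiff 𝓘(ℝ, ℝ) 𝓘(ℝ, ℂ) 1 (fun t => e (γ t)) := by
    intro t
    have a2 : ContMDiffAt 𝓘(ℝ, ℂ) 𝓘(ℝ, ℂ) 1 e (γ t) :=
      (contMDiffAt_of_mem_maximalAtlas he (hr ⟨t, rfl⟩)).of_le (by
        exact_mod_cast le_top)
    exact a2.comp t (h1 t)
  refine ⟨fun t => e (γ t), ⟨contMDiff_iff_contDiff.1 hm, ?_, fun t => by simp only [h3], ?_⟩, ?_⟩
  · intro t h0
    apply h2 t
    have a1 : MDifferentiableAt 𝓘(ℝ, ℝ) 𝓘(ℝ, ℂ) (fun t => e (γ t)) t :=
      (hm t).mdifferentiableAt one_ne_zero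
    have a2 : MDifferentiableAt 𝓘(ℝ, ℂ) 𝓘(ℝ, ℂ) e.symm (e (γ t)) :=
      (contMDiffAt_symm_of_mem_maximalAtlas he (e.map_source (hr ⟨t, rfl⟩))).mdifferentiableAt
        (by simp)
    have a0 : mfderiv 𝓘(ℝ, ℝ) 𝓘(ℝ, ℂ) (fun t => e (γ t)) t = 0 := by
      rw [mfderiv_eq_fderiv]
      have : fderiv ℝ (fun t => e (γ t)) t = 0 := by
        ext
        exact h0
      exact this
    have a3 : mfderiv 𝓘(ℝ, ℝ) 𝓘(ℝ, ℂ) (e.symm ∘ fun t => e (γ t)) t = 0 := by
      rw [mfderiv_comp t a2 a1, a0]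
      exact ContinuousLinearMap.comp_zero _
    have a4 : (e.symm ∘ fun t => e (γ t)) = γ := by
      funext t
      exact e.left_inv (hr ⟨t, rfl⟩)
    rw [a4] at a3
    exact a3
  · intro s hs t ht hst
    exact h4 hs ht (e.injOn (hr ⟨s, rfl⟩) (hr ⟨t, rfl⟩) hst)
  · rw [← range_comp]; rfl

/-- **Main theorem.** -/
theorem null_nonDiff [IsManifold 𝓘(ℝ, ℂ) ∞ S] (f : S ≃ₜ S) (hf : ∀ Γ : Set S, R789.C1.IsC1Curve Γ → R789.C1.IsC1Curve (f '' Γ))
    (e : OpenPartialHomeomorph S ℂ) (he : e ∈ IsManifold.maximalAtlas 𝓘(ℝ, ℂ) ∞ S) :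
    volume (e '' (R789.C1.nonDiff f ∩ e.source)) = 0 := by
  apply measure_null_of_locally_null
  rintro _ ⟨p, ⟨-, hp⟩, rfl⟩
  set e' := chartAt ℂ (f p) with he'def
  have he' : e' ∈ IsManifold.maximalAtlas 𝓘(ℝ, ℂ) ∞ S := IsManifold.chart_mem_maximalAtlas (f p)
  set U : Set ℂ := e.target ∩ e.symm ⁻¹' (f ⁻¹' e'.source) with hUdef
  have hU : IsOpen U := e.isOpen_inter_preimage_symm (e'.open_source.preimage f.continuous)
  set g : ℂ → ℂ := fun z => e' (f (e.symm z)) with hgdef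
  have hg : ContinuousOn g U := by
    intro z hz
    have h1 : ContinuousAt e.symm z := e.continuousAt_symm hz.1
    have h2 : ContinuousAt e' (f (e.symm z)) := e'.continuousAt hz.2
    have h3 : ContinuousAt (fun z => f (e.symm z)) z :=
      ContinuousAt.comp (f := e.symm) (g := f) f.continuous.continuousAt h1
    exact (ContinuousAt.comp (f := fun z => f (e.symm z)) (g := e') h2 h3).continuousWithinAt
  have hinj : InjOn g U := by
    intro a ha b hb hab
    have h1 := e'.injOn ha.2 hb.2 hab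
    exact e.symm.injOn ha.1 hb.1 (f.injective h1)
  have hop : ∀ V ⊆ U, IsOpen V → IsOpen (g '' V) := by
    intro V hV hVo
    have h1 : IsOpen (e.symm '' V) :=
      e.symm.isOpen_image_of_subset_source hVo (fun z hz => (hV hz).1)
    have h2 : IsOpen (f '' (e.symm '' V)) := f.isOpenMap _ h1
    have h3 : IsOpen (e' '' (f '' (e.symm '' V))) := by
      apply e'.isOpen_image_of_subset_source h2
      rintro _ ⟨_, ⟨z, hz, rfl⟩, rfl⟩
      exact (hV hz).2
    rw [image_image, image_image] at h3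
    exact h3
  have hcurve : ∀ γ, IsParam γ → range γ ⊆ U → ∃ γ', IsParam γ' ∧ g '' range γ = range γ' := by
    intro γ hγ hr
    have h1 := hf _ (isC1Curve_symm he hγ fun z hz => (hr hz).1)
    obtain ⟨γ', h2, h3⟩ := isParam_chart he' h1 (by
      rintro _ ⟨_, ⟨z, hz, rfl⟩, rfl⟩
      exact (hr hz).2)
    refine ⟨γ', h2, ?_⟩
    rw [← h3, image_image, image_image]
  have hnull := planar_main hU hg hinj hop hcurve
  have hpU : e p ∈ U := by
    refine ⟨e.map_source hp, ?_⟩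
    change f (e.symm (e p)) ∈ e'.source
    rw [e.left_inv hp]
    exact mem_chart_source ℂ (f p)
  refine ⟨(e '' (R789.C1.nonDiff f ∩ e.source)) ∩ U, inter_mem_nhdsWithin _ (hU.mem_nhds hpU), ?_⟩
  refine measure_mono_null ?_ hnull
  rintro _ ⟨⟨q, ⟨hq1, hq2⟩, rfl⟩, hqU⟩
  refine ⟨hqU, fun hd => hq1 ?_⟩
  have hqf : f q ∈ e'.source := by
    have := hqU.2
    change f (e.symm (e q)) ∈ e'.source at this
    rwa [e.left_inv hq2] at this
  have a1 : MDifferentiableAt 𝓘(ℝ, ℂ) 𝓘(ℝ, ℂ) e q :=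
    (contMDiffAt_of_mem_maximalAtlas he hq2).mdifferentiableAt (by simp)
  have a2 : MDifferentiableAt 𝓘(ℝ, ℂ) 𝓘(ℝ, ℂ) g (e q) := hd.mdifferentiableAt
  have hgq : g (e q) = e' (f q) := by
    simp only [hgdef]; rw [e.left_inv hq2]
  have a3 : MDifferentiableAt 𝓘(ℝ, ℂ) 𝓘(ℝ, ℂ) e'.symm (g (e q)) := by
    rw [hgq]
    exact (contMDiffAt_symm_of_mem_maximalAtlas he' (e'.map_source hqf)).mdifferentiableAt
      (by simp)
  have a4 := a3.comp q (a2.comp q a1)
  refine a4.congr_of_eventuallyEq ?_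
  have h1 : ∀ᶠ x in 𝓝 q, x ∈ e.source := e.open_source.mem_nhds hq2
  have h2 : ∀ᶠ x in 𝓝 q, f x ∈ e'.source :=
    f.continuous.continuousAt.eventually (e'.open_source.mem_nhds hqf)
  filter_upwards [h1, h2] with x hx1 hx2
  simp only [Function.comp_apply, hgdef]
  rw [e.left_inv hx1, e'.left_inv hx2]

end Pool.Agent.T6.H56.GL
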