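import Pool.Agent.T6.H56.GL.Stepanov
import Pool.Agent.T6.H56.GL.Density

/-!
# The theorem of Gehring and Lehto

A continuous map of the plane which is open on the open set `B` and has partial derivatives almost
everywhere on almost all horizontal and vertical lines in `B` is differentiable almost everywhere
in `B`.
-/

set_option autoImplicit false

open MeasureTheory Filter Topology Set Metric Complex

namespace Pool.Agent.T6.H56.GL

/-- maximum principle for open maps -/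
lemma max_open {u : ℂ → ℂ} (hu : Continuous u) {B K : Set ℂ} (hK : IsCompact K) (hKB : K ⊆ B)
    (hopen : ∀ V ⊆ B, IsOpen V → IsOpen (u '' V)) (c : ℂ) {M : ℝ} (hM : 0 ≤ M)
    (hfr : ∀ w ∈ frontier K, ‖u w - c‖ ≤ M) : ∀ z ∈ K, ‖u z - c‖ ≤ M := by
  intro z hz
  by_contra hc
  push Not at hc
  obtain ⟨w, hw, hmax⟩ := hK.exists_isMaxOn ⟨z, hz⟩
    (f := fun w => ‖u w - c‖) (by fun_prop : Continuous fun w => ‖u w - c‖).continuousOn
  have h1 : M < ‖u w - c‖ := hc.trans_le (hmax hz)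
  have hwi : w ∈ interior K := by
    by_contra h
    exact absurd (hfr w ⟨subset_closure hw, h⟩) (not_le.2 h1)
  have h2 := hopen (interior K) (interior_subset.trans hKB) isOpen_interior
  obtain ⟨ε, hε, hball⟩ := Metric.isOpen_iff.1 h2 (u w) ⟨w, hwi, rfl⟩
  have h3 : 0 < ‖u w - c‖ := hM.trans_lt h1
  set δ : ℝ := ε / (2 * ‖u w - c‖) with hδ
  have hδ0 : 0 < δ := by positivity
  have h4 : u w + δ * (u w - c) ∈ ball (u w) ε := by
    rw [mem_ball, dist_eq_norm, add_sub_cancel_left, norm_mul, Complex.norm_real,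
      Real.norm_eq_abs, abs_of_pos hδ0, hδ]
    have : ε / (2 * ‖u w - c‖) * ‖u w - c‖ = ε / 2 := by field_simp
    rw [this]
    linarith
  obtain ⟨w', hw', he⟩ := hball h4
  have h5 : ‖u w' - c‖ ≤ ‖u w - c‖ := hmax (interior_subset hw')
  rw [he] at h5
  have h6 : u w + δ * (u w - c) - c = ((1 + δ : ℝ) : ℂ) * (u w - c) := by
    push_cast; ring
  rw [h6, norm_mul, Complex.norm_real, Real.norm_eq_abs, abs_of_pos (by positivity)] at h5
  nlinarith

/-- the points at which `u` is Lipschitz with constant `n` in direction `v`, at scale `1/(n+1)` -/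
def EE (u : ℂ → ℂ) (v : ℂ) (n : ℕ) : Set ℂ :=
  {z | ∀ h : ℝ, |h| ≤ 1 / ((n : ℝ) + 1) → ‖u (z + h * v) - u z‖ ≤ n * |h|}

lemma isClosed_EE {u : ℂ → ℂ} (hu : Continuous u) (v : ℂ) (n : ℕ) : IsClosed (EE u v n) := by
  have h1 : EE u v n = ⋂ (h : ℝ) (_ : |h| ≤ 1 / ((n : ℝ) + 1)),
      {z | ‖u (z + h * v) - u z‖ ≤ n * |h|} := by
    ext z; simp [EE]
  rw [h1]
  refine isClosed_iInter fun h => isClosed_iInter fun _ => isClosed_le ?_ continuous_const
  fun_prop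

lemma EE_mono {u : ℂ → ℂ} {v : ℂ} {n m : ℕ} (h : n ≤ m) : EE u v n ⊆ EE u v m := by
  intro z hz t ht
  have hnm : (n : ℝ) ≤ m := by exact_mod_cast h
  refine (hz t (ht.trans ?_)).trans ?_
  · apply one_div_le_one_div_of_le (by positivity)
    linarith
  · gcongr

/-- a point of differentiability in direction `v` is in some `EE` -/
lemma mem_EE {u : ℂ → ℂ} {v z : ℂ} (h : DifferentiableAt ℝ (fun s : ℝ => u (z + s * v)) 0) :
    ∃ n : ℕ, z ∈ EE u v n := by
  obtain ⟨C, hC⟩ := h.isBigO_sub.bound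
  rw [Metric.eventually_nhds_iff] at hC
  obtain ⟨ε, hε, hC⟩ := hC
  obtain ⟨n1, hn1⟩ := exists_nat_one_div_lt hε
  obtain ⟨n2, hn2⟩ := exists_nat_ge C
  refine ⟨max n1 n2, fun t ht => ?_⟩
  have h1 : |t| < ε := by
    refine (ht.trans ?_).trans_lt hn1
    apply one_div_le_one_div_of_le (by positivity)
    have : (n1 : ℝ) ≤ (max n1 n2 : ℕ) := by exact_mod_cast le_max_left _ _
    linarith
  have h2 := hC (y := t) (by rw [Real.dist_eq, sub_zero]; exact h1)
  simp only [ofReal_zero, zero_mul, add_zero, sub_zero, Real.norm_eq_abs] at h2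
  refine h2.trans ?_
  have : C ≤ (max n1 n2 : ℕ) := hn2.trans (by exact_mod_cast le_max_right _ _)
  gcongr

/-- the pointwise Lipschitz condition at a linear density point -/
lemma lip_of_dense {u : ℂ → ℂ} (hu : Continuous u) {B : Set ℂ} (hB : IsOpen B)
    (hopen : ∀ V ⊆ B, IsOpen V → IsOpen (u '' V)) {n : ℕ} {z₀ : ℂ} (hz : z₀ ∈ B)
    (hE : z₀ ∈ EE u 1 n ∩ EE u I n)
    (hd : ∃ ρ : ℝ, 0 < ρ ∧ ∀ r : ℝ, 0 < r → r ≤ ρ →
      (∃ t ∈ Icc (1 : ℝ) 2, z₀ + (r * t : ℝ) ∈ EE u 1 n ∩ EE u I n) ∧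
      (∃ t ∈ Icc (1 : ℝ) 2, z₀ - (r * t : ℝ) ∈ EE u 1 n ∩ EE u I n) ∧
      (∃ t ∈ Icc (1 : ℝ) 2, z₀ + (r * t : ℝ) * I ∈ EE u 1 n ∩ EE u I n) ∧
      (∃ t ∈ Icc (1 : ℝ) 2, z₀ - (r * t : ℝ) * I ∈ EE u 1 n ∩ EE u I n)) :
    ∃ C r : ℝ, 0 < r ∧ ∀ y ∈ ball z₀ r, ‖u y - u z₀‖ ≤ C * ‖y - z₀‖ := by
  obtain ⟨ρ, hρ, hd⟩ := hd
  obtain ⟨R, hR, hRB⟩ := Metric.isOpen_iff.1 hB z₀ hz
  set a : ℝ := 1 / ((n : ℝ) + 1) with ha
  have ha0 : 0 < a := by positivity
  refine ⟨4 * n, min ρ (min (R / 5) (a / 2)), by positivity, fun z hzb => ?_⟩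
  rw [mem_ball, dist_eq_norm] at hzb
  set r := ‖z - z₀‖ with hr
  have hrρ : r < ρ := hzb.trans_le (min_le_left _ _)
  have hrR : r < R / 5 := hzb.trans_le ((min_le_right _ _).trans (min_le_left _ _))
  have hra : r < a / 2 := hzb.trans_le ((min_le_right _ _).trans (min_le_right _ _))
  rcases (norm_nonneg (z - z₀)).eq_or_lt with h0 | h0
  · have : z = z₀ := sub_eq_zero.1 (norm_eq_zero.1 h0.symm)
    rw [this, sub_self, norm_zero]
    positivity
  rw [← hr] at h0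
  obtain ⟨⟨t1, ht1, g1⟩, ⟨t2, ht2, g2⟩, ⟨t3, ht3, g3⟩, ⟨t4, ht4, g4⟩⟩ := hd r h0 hrρ.le
  set K : Set ℂ := Icc (z₀.re - r * t2) (z₀.re + r * t1) ×ℂ Icc (z₀.im - r * t4) (z₀.im + r * t3)
    with hK
  have hKc : IsCompact K := isCompact_Icc.reProdIm isCompact_Icc
  have hb1 : r * t1 ≤ 2 * r := by nlinarith [ht1.2]
  have hb2 : r * t2 ≤ 2 * r := by nlinarith [ht2.2]
  have hb3 : r * t3 ≤ 2 * r := by nlinarith [ht3.2]
  have hb4 : r * t4 ≤ 2 * r := by nlinarith [ht4.2]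
  have hc1 : r ≤ r * t1 := by nlinarith [ht1.1]
  have hc2 : r ≤ r * t2 := by nlinarith [ht2.1]
  have hc3 : r ≤ r * t3 := by nlinarith [ht3.1]
  have hc4 : r ≤ r * t4 := by nlinarith [ht4.1]
  have hKB : K ⊆ B := by
    intro w hw
    apply hRB
    rw [mem_ball, dist_eq_norm]
    have h1 := Complex.norm_le_abs_re_add_abs_im (w - z₀)
    rw [hK, mem_reProdIm] at hw
    have h2 : |(w - z₀).re| ≤ 2 * r := by
      rw [abs_le, Complex.sub_re]; constructor <;> linarith [hw.1.1, hw.1.2]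
    have h3 : |(w - z₀).im| ≤ 2 * r := by
      rw [abs_le, Complex.sub_im]; constructor <;> linarith [hw.2.1, hw.2.2]
    linarith
  -- the sides
  have side : ∀ (v v' : ℂ) (t h : ℝ), z₀ ∈ EE u v n → z₀ + t * v ∈ EE u v' n →
      |t| ≤ 2 * r → |h| ≤ 2 * r → ‖u (z₀ + t * v + h * v') - u z₀‖ ≤ 4 * n * r := by
    intro v v' t h e1 e2 b1 b2
    have i1 := e1 t (by linarith)
    have i2 := e2 h (by linarith)
    calc ‖u (z₀ + t * v + h * v') - u z₀‖ =
          ‖(u (z₀ + t * v + h * v') - u (z₀ + t * v)) + (u (z₀ + t * v) - u z₀)‖ := by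
          congr 1; ring
      _ ≤ n * |h| + n * |t| := (norm_add_le _ _).trans (add_le_add i2 i1)
      _ ≤ n * (2 * r) + n * (2 * r) := by gcongr
      _ = 4 * n * r := by ring
  have hfr : ∀ w ∈ frontier K, ‖u w - u z₀‖ ≤ 4 * n * r := by
    intro w hw
    rw [hK, Complex.frontier_reProdIm] at hw
    have hx : z₀.re - r * t2 ≤ z₀.re + r * t1 := by linarith
    have hy : z₀.im - r * t4 ≤ z₀.im + r * t3 := by linarith
    rw [isClosed_Icc.closure_eq, isClosed_Icc.closure_eq, frontier_Icc hx, frontier_Icc hy] at hw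
    have hwe : ∀ w : ℂ, w = z₀ + ((w.re - z₀.re : ℝ) : ℂ) * 1 + ((w.im - z₀.im : ℝ) : ℂ) * I := by
      intro w; apply Complex.ext <;> simp
    rcases hw with hw | hw
    · rw [mem_reProdIm] at hw
      have hh : |w.re - z₀.re| ≤ 2 * r := by
        rw [abs_le]; constructor <;> linarith [hw.1.1, hw.1.2]
      rcases hw.2 with h2 | h2
      · have e : w = z₀ + ((-(r * t4) : ℝ) : ℂ) * I + ((w.re - z₀.re : ℝ) : ℂ) * 1 := by
          apply Complex.ext
          · simp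
          · simp [h2, sub_eq_add_neg]
        rw [e]
        refine side I 1 _ _ hE.2 ?_ ?_ hh
        · have := g4.1
          convert this using 1
          push_cast; ring
        · rw [abs_neg, abs_of_nonneg (by linarith)]; exact hb4
      · have h2' : w.im = z₀.im + r * t3 := h2
        have e : w = z₀ + ((r * t3 : ℝ) : ℂ) * I + ((w.re - z₀.re : ℝ) : ℂ) * 1 := by
          apply Complex.ext
          · simp
          · simp [h2']
        rw [e]
        refine side I 1 _ _ hE.2 g3.1 ?_ hh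
        rw [abs_of_nonneg (by linarith)]; exact hb3
    · rw [mem_reProdIm] at hw
      have hh : |w.im - z₀.im| ≤ 2 * r := by
        rw [abs_le]; constructor <;> linarith [hw.2.1, hw.2.2]
      rcases hw.1 with h2 | h2
      · have e : w = z₀ + ((-(r * t2) : ℝ) : ℂ) * 1 + ((w.im - z₀.im : ℝ) : ℂ) * I := by
          apply Complex.ext
          · simp [h2, sub_eq_add_neg]
          · simp
        rw [e]
        refine side 1 I _ _ hE.1 ?_ ?_ hh
        · have := g2.2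
          convert this using 1
          push_cast; ring
        · rw [abs_neg, abs_of_nonneg (by linarith)]; exact hb2
      · have h2' : w.re = z₀.re + r * t1 := h2
        have e : w = z₀ + ((r * t1 : ℝ) : ℂ) * 1 + ((w.im - z₀.im : ℝ) : ℂ) * I := by
          apply Complex.ext
          · simp [h2']
          · simp
        rw [e]
        refine side 1 I _ _ hE.1 ?_ ?_ hh
        · have := g1.2
          convert this using 1
          push_cast; ring
        · rw [abs_of_nonneg (by linarith)]; exact hb1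
  refine max_open hu hKc hKB hopen (u z₀) (by positivity) hfr z ?_
  rw [hK, mem_reProdIm]
  have h1 := abs_le.1 (Complex.abs_re_le_norm (z - z₀))
  have h2 := abs_le.1 (Complex.abs_im_le_norm (z - z₀))
  rw [← hr] at h1 h2
  rw [Complex.sub_re] at h1
  rw [Complex.sub_im] at h2
  exact ⟨⟨by linarith [h1.1], by linarith [h1.2]⟩, ⟨by linarith [h2.1], by linarith [h2.2]⟩⟩

/-- **Theorem of Gehring and Lehto.** -/
theorem gehring_lehto {u : ℂ → ℂ} (hu : Continuous u) {B : Set ℂ} (hB : IsOpen B)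
    (hopen : ∀ V ⊆ B, IsOpen V → IsOpen (u '' V))
    (hx : ∀ y : ℝ, ∀ᵐ x : ℝ, ((x : ℂ) + y * I) ∈ B →
      DifferentiableAt ℝ (fun s : ℝ => u (((x : ℂ) + y * I) + s * 1)) 0)
    (hy : ∀ x : ℝ, ∀ᵐ y : ℝ, ((x : ℂ) + y * I) ∈ B →
      DifferentiableAt ℝ (fun s : ℝ => u (((x : ℂ) + y * I) + s * I)) 0) :
    ∀ᵐ z : ℂ, z ∈ B → DifferentiableAt ℝ u z := by
  have hm : ∀ v : ℂ, MeasurableSet (B \ ⋃ n, EE u v n) := fun v =>
    hB.measurableSet.diff (MeasurableSet.iUnion fun n => (isClosed_EE hu v n).measurableSet)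
  have h1 : volume (B \ ⋃ n, EE u 1 n) = 0 := by
    refine null_of_horizontal (hm _) fun y => ?_
    filter_upwards [hx y] with x hx
    rintro ⟨h1, h2⟩
    obtain ⟨n, hn⟩ := mem_EE (hx h1)
    exact h2 (mem_iUnion.2 ⟨n, hn⟩)
  have h2 : volume (B \ ⋃ n, EE u I n) = 0 := by
    refine null_of_vertical (hm _) fun x => ?_
    filter_upwards [hy x] with y hy
    rintro ⟨h1, h2⟩
    obtain ⟨n, hn⟩ := mem_EE (hy h1)
    exact h2 (mem_iUnion.2 ⟨n, hn⟩)
  have h3 : ∀ᵐ z : ℂ, ∀ n : ℕ, z ∈ EE u 1 n ∩ EE u I n →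
    ∃ ρ : ℝ, 0 < ρ ∧ ∀ r : ℝ, 0 < r → r ≤ ρ →
      (∃ t ∈ Icc (1 : ℝ) 2, z + (r * t : ℝ) ∈ EE u 1 n ∩ EE u I n) ∧
      (∃ t ∈ Icc (1 : ℝ) 2, z - (r * t : ℝ) ∈ EE u 1 n ∩ EE u I n) ∧
      (∃ t ∈ Icc (1 : ℝ) 2, z + (r * t : ℝ) * I ∈ EE u 1 n ∩ EE u I n) ∧
      (∃ t ∈ Icc (1 : ℝ) 2, z - (r * t : ℝ) * I ∈ EE u 1 n ∩ EE u I n) := by
    rw [ae_all_iff]
    exact fun n => ae_dense ((isClosed_EE hu 1 n).inter (isClosed_EE hu I n))
  have h4 : ∀ᵐ z : ℂ, z ∉ B \ ⋃ n, EE u 1 n := measure_eq_zero_iff_ae_notMem.1 h1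
  have h5 : ∀ᵐ z : ℂ, z ∉ B \ ⋃ n, EE u I n := measure_eq_zero_iff_ae_notMem.1 h2
  filter_upwards [h3, h4, h5, stepanovC volume u] with z k3 k4 k5 hst hzB
  apply hst
  have e1 : ∃ n, z ∈ EE u 1 n := by
    by_contra h
    exact k4 ⟨hzB, fun h' => h (mem_iUnion.1 h')⟩
  have e2 : ∃ n, z ∈ EE u I n := by
    by_contra h
    exact k5 ⟨hzB, fun h' => h (mem_iUnion.1 h')⟩
  obtain ⟨n1, e1⟩ := e1
  obtain ⟨n2, e2⟩ := e2
  have e3 : z ∈ EE u 1 (max n1 n2) ∩ EE u I (max n1 n2) :=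
    ⟨EE_mono (le_max_left _ _) e1, EE_mono (le_max_right _ _) e2⟩
  exact lip_of_dense hu hB hopen hzB e3 (k3 _ e3)

end Pool.Agent.T6.H56.GL
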